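import Mathlib
import Pool.Agent.W262.SQ.Fam
import Pool.Agent.W262.SQ.Fam2
import Pool.Agent.W262.SH.DefB
import Pool.Agent.W756.SH.Twi
import Pool.Agent.W736.SH.PHI
import Pool.Agent.W654.SHB.Rkk
import Pool.Agent.W305.SH.Abs
import Pool.Agent.W352.SH.Grp

/-!
# Base changes to multiquadratic fields depending on a prime: ranks and 2-parts of `Ш`

Let `D_0, ..., D_l` be products of nonzero integers and of polynomials `P_j` with integer
coefficients of degree one or two, irreducible over `ℚ`, pairwise not proportional and with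
`P_j(0) ≠ 0`. For a prime `p` let `E_p` be the quadratic twist of `E : y² = x (x - A) (x - B)` by
`D_0(p)` and `F_p = ℚ(√D_1(p), ..., √D_l(p))` (totally real if `D_i(p) > 0` for `i ≥ 1`). The sum
of `2 ^ (e * (rank E_p(F_p) + r_p))` over the primes `p` of an interval `(N, N + M]`, `N ≤ M ^ L`,
is at most `C * M / log M` for every `e` and `L`, where `Ш(E_p/F_p)` contains `(ℤ/2^(l+1))^(r_p)`.
-/

namespace Pool.Agent.Results.MP_6e2fc3_nt.PrimeFields

open Finset Polynomial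

open Pool.Agent.W262.SH (E KD ShaN Has rkN)

/-- `D i (t) = b i * ∏ P j (t)`, the product over the `j` with `g j = i` -/
def D {l m : ℕ} (b : Fin (l + 1) → ℤ) (g : Fin m → Fin (l + 1)) (P : Fin m → ℤ[X]) (t : ℤ)
    (i : Fin (l + 1)) : ℤ :=
  b i * ∏ j ∈ univ.filter (fun j => g j = i), (P j).eval t

/-- the quadratic twist of `y² = x (x - A) (x - B)` by `d` -/
def Tw (A B d : ℤ) : WeierstrassCurve ℚ := E (d * A) (d * B)

theorem D_eq {l m : ℕ} (b : Fin (l + 1) → ℤ) (g : Fin m → Fin (l + 1)) (P : Fin m → ℤ[X]) :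
    Pool.Agent.W262.SQ.Dp b g P = D b g P := rfl

theorem prod_insert {l : ℕ} (f : Fin (l + 1) → ℤ) (s : Finset (Fin l)) :
    ∏ i ∈ insert 0 (s.image Fin.succ), f i = (∏ i ∈ s, f i.succ) * f 0 := by
  rw [Finset.prod_insert (by
    rw [mem_image]
    rintro ⟨i, _, hi⟩
    exact Fin.succ_ne_zero i hi), prod_image (fun i _ j _ hij => Fin.succ_injective _ hij),
    mul_comm]

/-- The sums of `2 ^ (e * (rank E_p(F_p) + r p))` over the primes `p` of short intervals are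
at most `C * M / log M`. -/
theorem result (l m : ℕ) (A B : ℤ) (b : Fin (l + 1) → ℤ) (g : Fin m → Fin (l + 1))
    (P : Fin m → ℤ[X]) (hA : A ≠ 0) (hB : B ≠ 0) (hAB : A ≠ B) (hb : ∀ i, b i ≠ 0)
    (hdeg : ∀ j, (P j).natDegree = 1 ∨ (P j).natDegree = 2)
    (hirr : ∀ j, Irreducible ((P j).map (Int.castRingHom ℚ)))
    (hne : ∀ i j, i ≠ j →
      ¬ Associated ((P i).map (Int.castRingHom ℚ)) ((P j).map (Int.castRingHom ℚ)))
    (h0 : ∀ j, (P j).eval 0 ≠ 0) (e L : ℕ) :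
    ∃ C : ℝ, ∀ r : ℕ → ℕ,
      (∀ p : ℕ, p.Prime → (∀ i, D b g P p i ≠ 0) →
        Has (ShaN (Tw A B (D b g P p 0)) (KD fun i : Fin l => D b g P p i.succ))
          (2 ^ (l + 1)) (r p)) →
      ∀ N M : ℕ, 2 ≤ M → N ≤ M ^ L →
      ∑ p ∈ (Ioc N (N + M)).filter (fun p : ℕ => p.Prime ∧ ∀ i, D b g P p i ≠ 0),
        (2 : ℝ) ^ (e * (rkN (Tw A B (D b g P p 0)) (KD fun i : Fin l => D b g P p i.succ) +
          r p)) ≤ C * (M / Real.log M) := by
  have hT : Pool.Agent.W262.SH.TWI := Pool.Agent.W756.SH.Twi.twi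
  have hP : Pool.Agent.W262.SH.PHI := Pool.Agent.W736.SH.PHI.phi Pool.Agent.W305.SH.absc hT
  have hR : Pool.Agent.W262.SH.RKK := Pool.Agent.W654.SHB.rkk hT
  obtain ⟨C, -, hC⟩ := Pool.Agent.W262.SQ.sB (max e 1 * 2 ^ l)
    (Nat.one_le_iff_ne_zero.2 (Nat.mul_ne_zero (by omega) (by positivity))) A B b g P
    ⟨hdeg, hirr, hne⟩ h0 hA hB hAB hb L
  refine ⟨2 ^ l * C, fun r hr N M hM hN => ?_⟩
  have hne' : ∀ p ∈ (Ioc N (N + M)).filter
      (fun p : ℕ => p.Prime ∧ ∀ i, D b g P p i ≠ 0),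
      ∀ i, D b g P p i ≠ 0 := fun p hp => (mem_filter.1 hp).2.2
  have key := Pool.Agent.W262.SQ.sumB hP Pool.Agent.W352.SH.grp hR
    ((Ioc N (N + M)).filter (fun p : ℕ => p.Prime ∧ ∀ i, D b g P p i ≠ 0))
    (fun p : ℕ => D b g P p 0 * A) (fun p : ℕ => D b g P p 0 * B)
    (fun (p : ℕ) i => D b g P p i.succ) (C * (M / Real.log M)) (max e 1) r
    (fun p hp => mul_ne_zero (hne' p hp 0) hA) (fun p hp => mul_ne_zero (hne' p hp 0) hB)
    (fun p hp h' => hAB (mul_left_cancel₀ (hne' p hp 0) h'))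
    (fun p hp i => hne' p hp i.succ)
    (fun p hp => (Pool.Agent.W262.SH.has_shaN _ _ _ _).1
      (hr p (mem_filter.1 hp).2.1 (hne' p hp)))
    (fun S => by
      have h4 := hC (N, M) ⟨hM, hN⟩ (insert 0 (S.image Fin.succ))
      rw [D_eq] at h4
      simp only [prod_insert] at h4
      simp only [← mul_assoc]
      convert h4)
  rw [← mul_assoc] at key
  refine le_trans (sum_le_sum fun t _ => ?_) key
  refine le_trans (pow_le_pow_right₀ (by norm_num) (Nat.mul_le_mul_right _ (le_max_left e 1)))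
    (le_of_eq ?_)
  exact congrArg (fun n : ℕ => (2 : ℝ) ^ (max e 1 * (n + r t)))
    (Pool.Agent.W262.SH.rkN_eq _ _ _ _)

end Pool.Agent.Results.MP_6e2fc3_nt.PrimeFields
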